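import Pool.Agent.Y516.OJ.Stm

/-!
# Project OJ: few errors have a small probability, for fixed protocols
-/

set_option autoImplicit false

namespace Pool.Agent.Y85.OJ

open Finset
open Pool.Agent.Y516.OJ

lemma ind_nonneg (P : Prop) : 0 ≤ ind P := by
  unfold ind
  split_ifs <;> norm_num

lemma ind_true {P : Prop} (h : P) : ind P = 1 := by
  unfold ind
  rw [if_pos h]

lemma ind_false {P : Prop} (h : ¬ P) : ind P = 0 := by
  unfold ind
  rw [if_neg h]

lemma prod_ind {ι : Type} (s : Finset ι) (P : ι → Prop) :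
    ∏ i ∈ s, ind (P i) = ind (∀ i ∈ s, P i) := by
  by_cases h : ∀ i ∈ s, P i
  · rw [ind_true h]
    exact prod_eq_one fun i hi => ind_true (h i hi)
  · rw [ind_false h]
    push Not at h
    obtain ⟨i, hi, hPi⟩ := h
    exact prod_eq_zero hi (ind_false hPi)

lemma sum_wt (α : ℝ) (k : ℕ) : ∑ x : Fin k → Bool, wt α x = 1 := by
  have h := Finset.prod_univ_sum (fun _ : Fin k => (univ : Finset Bool))
    (fun _ b => if b = true then α else 1 - α)
  rw [Fintype.piFinset_univ] at h
  unfold wt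
  rw [← h]
  refine prod_eq_one fun i _ => ?_
  rw [Fintype.sum_bool]
  simp

lemma sum_Wt (α : ℝ) (u k : ℕ) : ∑ X : Fam u k, Wt α X = 1 := by
  have h := Finset.prod_univ_sum (fun _ : Fin u => (univ : Finset (Fin k → Bool)))
    (fun _ x => wt α x)
  rw [Fintype.piFinset_univ] at h
  unfold Wt
  rw [← h]
  exact prod_eq_one fun i _ => sum_wt α k

lemma wt_nonneg {α : ℝ} (h0 : 0 ≤ α) (h1 : α ≤ 1) {k : ℕ} (x : Fin k → Bool) : 0 ≤ wt α x := by
  unfold wt
  refine prod_nonneg fun i _ => ?_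
  split_ifs
  · exact h0
  · linarith

lemma Wt_nonneg {α : ℝ} (h0 : 0 ≤ α) (h1 : α ≤ 1) {u k : ℕ} (X : Fam u k) : 0 ≤ Wt α X :=
  prod_nonneg fun e _ => wt_nonneg h0 h1 (X e)

lemma EE_mono {α : ℝ} (h0 : 0 ≤ α) (h1 : α ≤ 1) {u k : ℕ} {h h' : Fam u k → Fam u k → ℝ}
    (hh : ∀ X Y, h X Y ≤ h' X Y) : EE α h ≤ EE α h' := by
  unfold EE
  refine sum_le_sum fun X _ => sum_le_sum fun Y _ => ?_
  exact mul_le_mul_of_nonneg_left (hh X Y) (mul_nonneg (Wt_nonneg h0 h1 X) (Wt_nonneg h0 h1 Y))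

lemma EE_nonneg {α : ℝ} (h0 : 0 ≤ α) (h1 : α ≤ 1) {u k : ℕ} {h : Fam u k → Fam u k → ℝ}
    (hh : ∀ X Y, 0 ≤ h X Y) : 0 ≤ EE α h := by
  unfold EE
  exact sum_nonneg fun X _ => sum_nonneg fun Y _ =>
    mul_nonneg (mul_nonneg (Wt_nonneg h0 h1 X) (Wt_nonneg h0 h1 Y)) (hh X Y)

lemma EE_sum {ι : Type} (s : Finset ι) (α : ℝ) {u k : ℕ} (c : ι → ℝ)
    (h : ι → Fam u k → Fam u k → ℝ) :
    EE α (fun X Y => ∑ i ∈ s, c i * h i X Y) = ∑ i ∈ s, c i * EE α (h i) := by
  unfold EE
  have e1 : ∀ X Y : Fam u k, Wt α X * Wt α Y * ∑ i ∈ s, c i * h i X Y =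
      ∑ i ∈ s, c i * (Wt α X * Wt α Y * h i X Y) := by
    intro X Y
    rw [mul_sum]
    exact sum_congr rfl fun i _ => by ring
  simp only [e1]
  have e2 : ∀ X : Fam u k, ∑ Y : Fam u k, ∑ i ∈ s, c i * (Wt α X * Wt α Y * h i X Y) =
      ∑ i ∈ s, ∑ Y : Fam u k, c i * (Wt α X * Wt α Y * h i X Y) := fun X => sum_comm
  simp only [e2]
  rw [sum_comm]
  refine sum_congr rfl fun i _ => ?_
  rw [mul_sum]
  exact sum_congr rfl fun X _ => by rw [mul_sum]

lemma EE_one (α : ℝ) (u k : ℕ) : EE α (fun (_ _ : Fam u k) => 1) = 1 := by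
  unfold EE
  have h : ∀ X : Fam u k, ∑ Y : Fam u k, Wt α X * Wt α Y * 1 = Wt α X := by
    intro X
    simp only [mul_one]
    rw [← mul_sum, sum_Wt, mul_one]
  simp only [h]
  exact sum_Wt α u k

/-- expansion of the product -/
lemma prod_half {ι : Type} [DecidableEq ι] (H : Finset ι) (P : ι → Prop) :
    ∏ d ∈ H, (1 / 2 + ind (P d) / 2) =
      ∑ S ∈ H.powerset, (1 / 2 : ℝ) ^ H.card * ind (∀ d ∈ S, P d) := by
  have h1 : ∀ d ∈ H, (1 / 2 + ind (P d) / 2) = (1 / 2) * (1 + ind (P d)) := by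
    intro d _
    ring
  rw [prod_congr rfl h1, prod_mul_distrib, prod_const, prod_one_add, mul_sum]
  exact sum_congr rfl fun S _ => by rw [prod_ind]

lemma sum_pow_card {ι : Type} [DecidableEq ι] (H : Finset ι) (ρ : ℝ) :
    ∑ S ∈ H.powerset, ρ ^ S.card = (1 + ρ) ^ H.card := by
  have h := prod_one_add (f := fun _ : ι => ρ) H
  rw [prod_const] at h
  rw [h]
  exact sum_congr rfl fun S _ => by rw [prod_const]

section leafs

variable {u k m b r : ℕ} {D : Finset (Fin k × Fin k)}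
  {p : Fin k × Fin k → Prot (Fam u k) (Fam u k)}
  (F G : Fin k × Fin k → Fin (2 ^ b) → Fam u k → Bool) (a : Fin k × Fin k → Fin (2 ^ b) → Bool)

/-- the first side of a joint leaf -/
def FR (F : Fin k × Fin k → Fin (2 ^ b) → Fam u k → Bool) (D : Finset (Fin k × Fin k))
    (R : D → Fin (2 ^ b)) (X : Fam u k) : Bool := decide (∀ d : D, F d (R d) X = true)

/-- the pairs which are predicted to be disjoint -/
def Hs (a : Fin k × Fin k → Fin (2 ^ b) → Bool) (D : Finset (Fin k × Fin k))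
    (R : D → Fin (2 ^ b)) : Finset D := univ.filter fun d => a d (R d) = false

lemma FR_iff (R : D → Fin (2 ^ b)) (X : Fam u k) :
    FR F D R X = true ↔ ∀ d : D, F d (R d) X = true := by
  unfold FR
  exact decide_eq_true_iff

lemma card_sub (q : Fin k × Fin k → Prop) [DecidablePred q] :
    (D.filter q).card = ((univ : Finset D).filter fun d : D => q d).card := by
  rw [card_filter, card_filter, ← Finset.sum_coe_sort D]

open Classical in
lemma leaf_bound (hD : D.card = m) (X Y : Fam u k) (R : D → Fin (2 ^ b))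
    (hR : ∀ d : D, (p d).run X Y = a d (R d))
    (h1 : nErr D p X Y ≤ r) (h2 : 2 * nInt D X Y ≤ m) :
    m ≤ 2 * (Hs a D R).card + 2 * r ∧
      1 ≤ (2 : ℝ) ^ r * ∏ d ∈ Hs a D R, (1 / 2 + ind (Disj X Y d) / 2) := by
  unfold nErr at h1
  unfold nInt at h2
  rw [card_sub] at h1 h2
  have hm : (univ : Finset D).card = m := by rw [card_univ, Fintype.card_coe, hD]
  -- the pairs outside of the prediction are disjoint only if they are errors
  have e1 : ((univ : Finset D).filter fun d : D => ¬ a d (R d) = false ∧ Disj X Y d).card ≤ r := by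
    refine le_trans (card_le_card ?_) h1
    intro d hd
    rw [mem_filter] at hd ⊢
    refine ⟨mem_univ _, fun hc => ?_⟩
    have h3 : (p d).run X Y = true := by
      rw [hR d]
      exact Bool.eq_true_of_not_eq_false hd.2.1
    exact (hc.1 h3) hd.2.2
  have e2 : ((Hs a D R).filter fun d : D => ¬ Disj X Y d).card ≤ r := by
    refine le_trans (card_le_card ?_) h1
    intro d hd
    rw [mem_filter] at hd ⊢
    refine ⟨mem_univ _, fun hc => ?_⟩
    have h3 : (p d).run X Y = true := hc.2 hd.2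
    have h4 : a d (R d) = false := (mem_filter.1 hd.1).2
    rw [hR d, h4] at h3
    exact absurd h3 (by decide)
  constructor
  · have e3 : (univ : Finset D).card ≤ (((univ : Finset D).filter fun d : D => ¬ Disj X Y d).card +
        ((univ : Finset D).filter fun d : D => ¬ a d (R d) = false ∧ Disj X Y d).card) +
        (Hs a D R).card := by
      refine le_trans (card_le_card ?_) ((card_union_le _ _).trans
        (Nat.add_le_add_right (card_union_le _ _) _))
      intro d _
      by_cases h3 : a d (R d) = false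
      · exact mem_union_right _ (mem_filter.2 ⟨mem_univ _, h3⟩)
      · refine mem_union_left _ ?_
        by_cases h4 : Disj X Y d
        · exact mem_union_right _ (mem_filter.2 ⟨mem_univ _, h3, h4⟩)
        · exact mem_union_left _ (mem_filter.2 ⟨mem_univ _, h4⟩)
    omega
  · have e4 : ∏ d ∈ Hs a D R, (1 / 2 + ind (Disj X Y d) / 2) =
        (1 / 2 : ℝ) ^ ((Hs a D R).filter fun d : D => ¬ Disj X Y d).card := by
      rw [← prod_filter_mul_prod_filter_not (Hs a D R) (fun d : D => Disj X Y d)]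
      have h5 : ∏ d ∈ (Hs a D R).filter (fun d : D => Disj X Y d),
          (1 / 2 + ind (Disj X Y d) / 2) = 1 := by
        refine prod_eq_one fun d hd => ?_
        rw [ind_true (mem_filter.1 hd).2]
        norm_num
      have h6 : ∏ d ∈ (Hs a D R).filter (fun d : D => ¬ Disj X Y d),
          (1 / 2 + ind (Disj X Y d) / 2) =
          (1 / 2 : ℝ) ^ ((Hs a D R).filter fun d : D => ¬ Disj X Y d).card := by
        refine prod_eq_pow_card fun d hd => ?_
        rw [ind_false (mem_filter.1 hd).2]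
        norm_num
      rw [h5, h6, one_mul]
    rw [e4]
    have h7 : (1 / 2 : ℝ) ^ r ≤
        (1 / 2 : ℝ) ^ ((Hs a D R).filter fun d : D => ¬ Disj X Y d).card :=
      pow_le_pow_of_le_one (by norm_num) (by norm_num) e2
    calc (1 : ℝ) = 2 ^ r * (1 / 2) ^ r := by rw [← mul_pow]; norm_num
      _ ≤ _ := mul_le_mul_of_nonneg_left h7 (by positivity)

end leafs

theorem ub (hC : CorrStm) (hL : LeafStm) (hH : HolStm) : UBStm := by
  classical
  intro u k m b r α ρ D p hα hα1 hm hD hp hρ0 hρ1 hρ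
  choose F G a hF using fun d => hL _ _ (p d) b (hp d)
  have hm' : (1 : ℝ) ≤ m := by exact_mod_cast hm
  have hα2 : α ≤ 1 := by nlinarith
  have hδ : 0 < 2 * (m : ℝ) * α := by positivity
  -- the probabilities of the leafs
  let P : (D → Fin (2 ^ b)) → ℝ := fun R =>
    EE α fun X Y => ind (FR F D R X = true) * ind (FR G D R Y = true)
  have hP0 : ∀ R, 0 ≤ P R := fun R => EE_nonneg hα.le hα2 fun X Y =>
    mul_nonneg (ind_nonneg _) (ind_nonneg _)
  -- the leaf of a pair
  have hex : ∀ X Y : Fam u k, ∃ R : D → Fin (2 ^ b), (FR F D R X = true ∧ FR G D R Y = true) ∧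
      ∀ R', FR F D R' X = true → FR G D R' Y = true → R' = R := by
    intro X Y
    choose R hR hR' using fun d : D => (hF d X Y).1
    refine ⟨R, ⟨(FR_iff F R X).2 fun d => (hR d).1, (FR_iff G R Y).2 fun d => (hR d).2⟩, ?_⟩
    intro R' h1 h2
    funext d
    exact hR' d (R' d) ⟨(FR_iff F R' X).1 h1 d, (FR_iff G R' Y).1 h2 d⟩
  have hPs : ∑ R, P R ≤ 1 := by
    have h1 := EE_sum (univ : Finset (D → Fin (2 ^ b))) α (fun _ => 1) fun R X Y =>
      ind (FR F D R X = true) * ind (FR G D R Y = true)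
    have h2 : ∑ R, P R = EE α fun X Y => ∑ R : D → Fin (2 ^ b),
        1 * (ind (FR F D R X = true) * ind (FR G D R Y = true)) := by
      rw [h1]
      exact sum_congr rfl fun R _ => (one_mul _).symm
    rw [h2]
    refine le_trans (EE_mono (h' := fun _ _ => 1) hα.le hα2 fun X Y => ?_) (le_of_eq (EE_one α u k))
    obtain ⟨R, ⟨hR1, hR2⟩, hR3⟩ := hex X Y
    rw [sum_eq_single R]
    · rw [ind_true hR1, ind_true hR2]
      norm_num
    · intro R' _ hne
      by_cases h3 : FR F D R' X = true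
      · by_cases h4 : FR G D R' Y = true
        · exact absurd (hR3 R' h3 h4) hne
        · rw [ind_false h4, mul_zero, mul_zero]
      · rw [ind_false h3, zero_mul, mul_zero]
    · intro h
      exact absurd (mem_univ _) h
  -- the bound at the points
  let cc : (D → Fin (2 ^ b)) → ℝ := fun R =>
    if m ≤ 2 * (Hs a D R).card + 2 * r then 2 ^ r else 0
  have hcc : ∀ R, 0 ≤ cc R := by
    intro R
    show (0 : ℝ) ≤ if m ≤ 2 * (Hs a D R).card + 2 * r then 2 ^ r else 0
    split_ifs <;> positivity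
  have hprod : ∀ (R : D → Fin (2 ^ b)) (X Y : Fam u k),
      0 ≤ ∏ d ∈ Hs a D R, (1 / 2 + ind (Disj X Y d) / 2) := fun R X Y =>
    prod_nonneg fun d _ => by have := ind_nonneg (Disj X Y d); linarith
  have hpt : ∀ X Y : Fam u k, ind (nErr D p X Y ≤ r ∧ 2 * nInt D X Y ≤ m) ≤
      ∑ R : D → Fin (2 ^ b), cc R * (ind (FR F D R X = true) * ind (FR G D R Y = true) *
        ∏ d ∈ Hs a D R, (1 / 2 + ind (Disj X Y d) / 2)) := by
    intro X Y
    have hnn : ∀ R ∈ (univ : Finset (D → Fin (2 ^ b))), 0 ≤ cc R *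
        (ind (FR F D R X = true) * ind (FR G D R Y = true) *
        ∏ d ∈ Hs a D R, (1 / 2 + ind (Disj X Y d) / 2)) := fun R _ =>
      mul_nonneg (hcc R) (mul_nonneg (mul_nonneg (ind_nonneg _) (ind_nonneg _)) (hprod R X Y))
    by_cases hev : nErr D p X Y ≤ r ∧ 2 * nInt D X Y ≤ m
    · obtain ⟨R, ⟨hR1, hR2⟩, -⟩ := hex X Y
      have h3 := leaf_bound (p := p) a hD X Y R (fun d => (hF d X Y).2 (R d)
        ((FR_iff F R X).1 hR1 d) ((FR_iff G R Y).1 hR2 d)) hev.1 hev.2
      refine le_trans ?_ (single_le_sum hnn (mem_univ R))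
      rw [ind_true hev, ind_true hR1, ind_true hR2, one_mul, one_mul]
      have h4 : cc R = 2 ^ r := if_pos h3.1
      rw [h4]
      exact h3.2
    · rw [ind_false hev]
      exact sum_nonneg hnn
  -- the contribution of a leaf
  have hleaf : ∀ R : D → Fin (2 ^ b), EE α (fun X Y => ind (FR F D R X = true) *
      ind (FR G D R Y = true) * ∏ d ∈ Hs a D R, (1 / 2 + ind (Disj X Y d) / 2)) ≤
      ((1 + ρ) / 2) ^ (Hs a D R).card * P R ^ (1 / (1 + 2 * (m : ℝ) * α)) := by
    intro R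
    have h1 : (fun X Y : Fam u k => ind (FR F D R X = true) *
        ind (FR G D R Y = true) * ∏ d ∈ Hs a D R, (1 / 2 + ind (Disj X Y d) / 2)) =
        fun X Y => ∑ S ∈ (Hs a D R).powerset, (1 / 2 : ℝ) ^ (Hs a D R).card *
          (ind (FR F D R X = true) * ind (FR G D R Y = true) *
            ind (∀ d ∈ S.map (Function.Embedding.subtype _), Disj X Y d)) := by
      funext X Y
      rw [prod_half, mul_sum]
      refine sum_congr rfl fun S _ => ?_
      have h2 : (∀ d ∈ S.map (Function.Embedding.subtype _), Disj X Y d) =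
          (∀ d ∈ S, Disj X Y (d : Fin k × Fin k)) := by
        apply propext
        constructor
        · intro h d hd
          exact h _ (mem_map_of_mem _ hd)
        · intro h d hd
          obtain ⟨d', hd', rfl⟩ := mem_map.1 hd
          exact h d' hd'
      rw [h2]
      ring
    rw [h1, EE_sum]
    have h3 : ∀ S ∈ (Hs a D R).powerset, (1 / 2 : ℝ) ^ (Hs a D R).card *
        EE α (fun X Y => ind (FR F D R X = true) * ind (FR G D R Y = true) *
            ind (∀ d ∈ S.map (Function.Embedding.subtype _), Disj X Y d)) ≤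
        (1 / 2 : ℝ) ^ (Hs a D R).card * (ρ ^ S.card * P R ^ (1 / (1 + 2 * (m : ℝ) * α))) := by
      intro S _
      refine mul_le_mul_of_nonneg_left ?_ (by positivity)
      have hS : (S.map (Function.Embedding.subtype _)).card ≤ m := by
        rw [card_map, ← hD, ← Fintype.card_coe D]
        exact card_le_univ S
      have h4 := hC u k m α (S.map (Function.Embedding.subtype _)) (FR F D R) (FR G D R) hα hα1 hm hS
      refine h4.trans (mul_le_mul_of_nonneg_right ?_ (Real.rpow_nonneg (hP0 R) _))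
      have h5 := hρ _ hS
      rw [card_map] at h5 ⊢
      exact h5
    refine (sum_le_sum h3).trans (le_of_eq ?_)
    rw [← mul_sum, ← sum_mul, sum_pow_card, ← mul_assoc, ← mul_pow]
    congr 2
    ring
  -- summation
  have hbase0 : 0 < (1 + ρ) / 2 := by linarith
  have hbase1 : (1 + ρ) / 2 ≤ 1 := by linarith
  have hR : ∀ R : D → Fin (2 ^ b), cc R * EE α (fun X Y => ind (FR F D R X = true) *
      ind (FR G D R Y = true) * ∏ d ∈ Hs a D R, (1 / 2 + ind (Disj X Y d) / 2)) ≤
      2 ^ r * ((1 + ρ) / 2) ^ ((m : ℝ) / 2 - r) * P R ^ (1 / (1 + 2 * (m : ℝ) * α)) := by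
    intro R
    have hPR : 0 ≤ P R ^ (1 / (1 + 2 * (m : ℝ) * α)) := Real.rpow_nonneg (hP0 R) _
    by_cases hc : m ≤ 2 * (Hs a D R).card + 2 * r
    · have h4 : cc R = 2 ^ r := if_pos hc
      rw [h4, mul_assoc]
      refine mul_le_mul_of_nonneg_left ((hleaf R).trans ?_) (by positivity)
      refine mul_le_mul_of_nonneg_right ?_ hPR
      rw [← Real.rpow_natCast]
      refine Real.rpow_le_rpow_of_exponent_ge hbase0 hbase1 ?_
      have h5 : (m : ℝ) ≤ 2 * (Hs a D R).card + 2 * r := by exact_mod_cast hc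
      linarith
    · have h4 : cc R = 0 := if_neg hc
      rw [h4, zero_mul]
      exact mul_nonneg (mul_nonneg (by positivity) (Real.rpow_nonneg hbase0.le _)) hPR
  have hcard : (Fintype.card (D → Fin (2 ^ b)) : ℝ) ^ (2 * (m : ℝ) * α) =
      (2 : ℝ) ^ ((b : ℝ) * m * (2 * m * α)) := by
    rw [Fintype.card_fun, Fintype.card_fin, Fintype.card_coe, hD, ← pow_mul]
    push_cast
    rw [← Real.rpow_natCast 2 (b * m), ← Real.rpow_mul (by norm_num), Nat.cast_mul]
  calc EE α (fun X Y => ind (nErr D p X Y ≤ r ∧ 2 * nInt D X Y ≤ m))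
      ≤ EE α (fun X Y => ∑ R : D → Fin (2 ^ b), cc R * (ind (FR F D R X = true) *
          ind (FR G D R Y = true) * ∏ d ∈ Hs a D R, (1 / 2 + ind (Disj X Y d) / 2))) :=
        EE_mono hα.le hα2 hpt
    _ = ∑ R : D → Fin (2 ^ b), cc R * EE α (fun X Y => ind (FR F D R X = true) *
          ind (FR G D R Y = true) * ∏ d ∈ Hs a D R, (1 / 2 + ind (Disj X Y d) / 2)) :=
        EE_sum _ α cc _
    _ ≤ ∑ R : D → Fin (2 ^ b), 2 ^ r * ((1 + ρ) / 2) ^ ((m : ℝ) / 2 - r) *
          P R ^ (1 / (1 + 2 * (m : ℝ) * α)) := sum_le_sum fun R _ => hR R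
    _ = 2 ^ r * ((1 + ρ) / 2) ^ ((m : ℝ) / 2 - r) *
          ∑ R : D → Fin (2 ^ b), P R ^ (1 / (1 + 2 * (m : ℝ) * α)) := by rw [mul_sum]
    _ ≤ 2 ^ r * ((1 + ρ) / 2) ^ ((m : ℝ) / 2 - r) *
          (Fintype.card (D → Fin (2 ^ b)) : ℝ) ^ (2 * (m : ℝ) * α) :=
        mul_le_mul_of_nonneg_left (hH _ P _ hδ hP0 hPs)
          (mul_nonneg (by positivity) (Real.rpow_nonneg hbase0.le _))
    _ = 2 ^ r * ((1 + ρ) / 2) ^ ((m : ℝ) / 2 - r) * (2 : ℝ) ^ (b * m * (2 * m * α)) := by
        rw [hcard]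

end Pool.Agent.Y85.OJ
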